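import Pool.Agent.helper43.KG.Spec

set_option autoImplicit false

/-! # KG row ROW -/

namespace Pool.Agent.helper43.KG

open Finset MeasureTheory ProbabilityTheory

lemma ROW_bern {u r : ℝ} (hu : 0 ≤ u) (hr : 1 ≤ r) (hr2 : r < 2) :
    u ^ r ≤ 1 + r / 2 * (u ^ 2 - 1) := by
  have h1 : u ^ r = (1 + (u ^ 2 - 1)) ^ (r / 2) := by
    have e1 : 1 + (u ^ 2 - 1) = u ^ (2 : ℝ) := by
      rw [Real.rpow_two]; ring
    rw [e1, ← Real.rpow_mul hu]
    congr 1
    ring
  rw [h1]
  exact rpow_one_add_le_one_add_mul_self (by nlinarith [sq_nonneg u]) (by linarith) (by linarith)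

/-- the truncation constant -/
lemma ROW_K {e r : ℝ} (he : 0 < e) (hr2 : r < 2) :
    ∃ K : ℝ, 1 ≤ K ∧ 3 ≤ e ^ (1 / r) * K ^ (1 - r / 2) := by
  have hq : 0 < 1 - r / 2 := by linarith
  have hb : 0 < e ^ (1 / r) := Real.rpow_pos_of_pos he _
  refine ⟨max 1 ((3 / e ^ (1 / r)) ^ (1 / (1 - r / 2))), le_max_left _ _, ?_⟩
  have h0 : 0 ≤ 3 / e ^ (1 / r) := by positivity
  have h1 : 3 / e ^ (1 / r) ≤ (max 1 ((3 / e ^ (1 / r)) ^ (1 / (1 - r / 2)))) ^ (1 - r / 2) := by
    calc 3 / e ^ (1 / r) = ((3 / e ^ (1 / r)) ^ (1 / (1 - r / 2))) ^ (1 - r / 2) := by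
          rw [← Real.rpow_mul h0, one_div_mul_cancel hq.ne', Real.rpow_one]
      _ ≤ _ := Real.rpow_le_rpow (Real.rpow_nonneg h0 _) (le_max_right _ _) hq.le
  calc (3 : ℝ) = e ^ (1 / r) * (3 / e ^ (1 / r)) := by field_simp
    _ ≤ _ := mul_le_mul_of_nonneg_left h1 hb.le

/-- truncation: the Gaussian lower bound -/
lemma ROW_low (hm : MON) (hg : GSC) {p ε' K : ℝ} (hp : 1 ≤ p) (hK : 1 ≤ K) (d : ℕ)
    (hclt : ∀ (w : Fin d → ℝ), (∀ j ∈ (univ : Finset (Fin d)), |w j| ≤ K) →
      GH p 0 (Real.sqrt (∑ j, w j ^ 2 * (1 - (0 : ℝ) ^ 2))) - ε' * (d : ℝ) ^ (p / 2) ≤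
        EE univ (fun _ => 0) (fun U => |0 + ∑ j, w j * (sg U j - 0)| ^ p)) (t : Fin d → ℝ) :
    (∑ j, (min |t j| K) ^ 2) ^ (p / 2) * gam p - ε' * (d : ℝ) ^ (p / 2) ≤
      EE univ (fun _ => 0) (fun U => |∑ j, t j * sg U j| ^ p) := by
  set c : Fin d → ℝ := fun j => if t j = 0 then 1 else min 1 (K / |t j|) with hc
  have hc01 : ∀ j, 0 ≤ c j ∧ c j ≤ 1 := by
    intro j
    rw [hc]
    dsimp only
    split_ifs with h
    · exact ⟨zero_le_one, le_refl _⟩
    · exact ⟨le_min zero_le_one (by positivity), min_le_left _ _⟩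
  have hct : ∀ j, |c j * t j| = min |t j| K := by
    intro j
    rw [abs_mul, abs_of_nonneg (hc01 j).1, hc]
    dsimp only
    split_ifs with h
    · rw [h, abs_zero, mul_zero, min_eq_left (by linarith)]
    · have ht : 0 < |t j| := abs_pos.2 h
      rw [min_mul_of_nonneg _ _ ht.le, one_mul, div_mul_cancel₀ _ ht.ne']
  have hconv : ConvexOn ℝ Set.univ (fun x : ℝ => |x| ^ p) := by
    have h1 : ConvexOn ℝ (Set.Ici (0 : ℝ)) (fun x : ℝ => x ^ p) := convexOn_rpow hp
    refine ⟨convex_univ, fun x _ y _ a b ha hb hab => ?_⟩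
    have e1 : |a • x + b • y| ≤ a • |x| + b • |y| := by
      simp only [smul_eq_mul]
      calc |a * x + b * y| ≤ |a * x| + |b * y| := abs_add_le _ _
        _ = a * |x| + b * |y| := by rw [abs_mul, abs_mul, abs_of_nonneg ha, abs_of_nonneg hb]
    calc |a • x + b • y| ^ p ≤ (a • |x| + b • |y|) ^ p :=
          Real.rpow_le_rpow (abs_nonneg _) e1 (by linarith)
      _ ≤ _ := h1.2 (Set.mem_Ici.2 (abs_nonneg x)) (Set.mem_Ici.2 (abs_nonneg y)) ha hb hab
  have h1 := hm (Fin d) univ (fun _ => 0) t c (fun x => |x| ^ p) hconv (fun j _ => by simp)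
    (fun j _ => hc01 j) 0
  have h2 := hclt (fun j => c j * t j) (fun j _ => by rw [hct]; exact min_le_right _ _)
  have e1 : EE univ (fun _ => 0) (fun U => |0 + ∑ j, t j * (sg U j - 0)| ^ p) =
      EE univ (fun _ => 0) (fun U => |∑ j, t j * sg U j| ^ p) :=
    EE_congr fun U _ => by simp
  have e2 : (∑ j, (c j * t j) ^ 2 * (1 - (0 : ℝ) ^ 2)) = ∑ j, (min |t j| K) ^ 2 :=
    Finset.sum_congr rfl fun j _ => by rw [← hct, sq_abs]; ring
  have hQ : 0 ≤ ∑ j, (min |t j| K) ^ 2 := Finset.sum_nonneg fun j _ => sq_nonneg _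
  have e3 : GH p 0 (Real.sqrt (∑ j, (min |t j| K) ^ 2)) =
      (∑ j, (min |t j| K) ^ 2) ^ (p / 2) * gam p := by
    have := hg p 0 1 (Real.sqrt (∑ j, (min |t j| K) ^ 2)) (Real.sqrt_nonneg _)
    rw [mul_zero, mul_one] at this
    rw [this, Real.sqrt_eq_rpow, ← Real.rpow_mul hQ]
    unfold gam
    congr 2
    ring
  simp only [e2, e3] at h2
  rw [e1] at h1
  exact h2.trans h1

theorem t_row (hm : MON) (hc : CLT) (hs : SLK) (ha : ROA) (hu : GUP) (hg : GSC) : ROW := by
  intro p r ε hp hp2 hr hr2 hε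
  obtain ⟨-, hg1, hg0⟩ := hu p hp hp2.le
  obtain ⟨δA, hδA, hA⟩ := ha r (ε / 2) hr hr2 (by linarith)
  set g := gam p with hgdef
  set e : ℝ := min (min (ε / 4) (1 / 4)) δA with hedef
  have he0 : 0 < e := lt_min (lt_min (by linarith) (by norm_num)) hδA
  have heε : e ≤ ε / 4 := (min_le_left _ _).trans (min_le_left _ _)
  have he4 : e ≤ 1 / 4 := (min_le_left _ _).trans (min_le_right _ _)
  have heA : e ≤ δA := min_le_right _ _
  obtain ⟨K, hK1, hK⟩ := ROW_K (r := r) he0 hr2
  set ε' : ℝ := min (ε / 4) (g * e / 6) with hε'def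
  have hε'0 : 0 < ε' := lt_min (by linarith) (by positivity)
  have hε'1 : ε' ≤ ε / 4 := min_le_left _ _
  have hε'2 : ε' ≤ g * e / 6 := min_le_right _ _
  obtain ⟨d₀, hd₀⟩ := hc p ε' K hp hp2 hε'0 hK1
  refine ⟨min (1 / 2) (g * e / 6), lt_min (by norm_num) (by positivity), max d₀ 1, ?_⟩
  intro d hd t ht
  have hd1 : 1 ≤ d := (le_max_right _ _).trans hd
  have hd2 : d₀ ≤ d := (le_max_left _ _).trans hd
  have hdR : (1 : ℝ) ≤ (d : ℝ) := by exact_mod_cast hd1
  have hd0 : (0 : ℝ) < (d : ℝ) := by linarith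
  set D : ℝ := (d : ℝ) ^ (p / 2) with hDdef
  have hD : 0 < D := Real.rpow_pos_of_pos hd0 _
  set E : ℝ := EE univ (fun _ => 0) (fun U => |∑ j, t j * sg U j| ^ p) with hEdef
  have hδ1 : min (1 / 2) (g * e / 6) ≤ 1 / 2 := min_le_left _ _
  have hδ2 : min (1 / 2) (g * e / 6) ≤ g * e / 6 := min_le_right _ _
  by_cases hcase : e * d ≤ ∑ j ∈ univ.filter (fun j => K < |t j|), |t j| ^ r
  · -- many large entries
    have h1 := hs p r e K d t hp hr hr2 (by linarith) he0 hK ht.le hcase
    have h2 : (3 * (d : ℝ)) ^ (p / 2) = 3 ^ (p / 2) * D := by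
      rw [Real.mul_rpow (by norm_num) hd0.le]
    have h3 : (1.6 : ℝ) ≤ 3 ^ (p / 2) := by
      calc (1.6 : ℝ) ≤ Real.sqrt 3 := by
            apply Real.le_sqrt_of_sq_le
            norm_num
        _ = 3 ^ (1 / 2 : ℝ) := Real.sqrt_eq_rpow 3
        _ ≤ 3 ^ (p / 2) := Real.rpow_le_rpow_of_exponent_le (by norm_num) (by linarith)
    have h4 : 1.6 * D ≤ E := by
      have : 1.6 * D ≤ 3 ^ (p / 2) * D := mul_le_mul_of_nonneg_right h3 hD.le
      calc 1.6 * D ≤ 3 ^ (p / 2) * D := this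
        _ = (3 * (d : ℝ)) ^ (p / 2) := h2.symm
        _ ≤ E := h1
    constructor
    · nlinarith
    · intro h5
      exfalso
      nlinarith
  · push Not at hcase
    set u : Fin d → ℝ := fun j => min |t j| K with hudef
    have hu0 : ∀ j, 0 ≤ u j := fun j => le_min (abs_nonneg _) (by linarith)
    have hsplit := Finset.sum_filter_add_sum_filter_not (univ : Finset (Fin d))
      (fun j => K < |t j|) (fun j => |t j| ^ r)
    have hur : (1 - e) * d ≤ ∑ j, u j ^ r := by
      have h1 : ∑ j ∈ univ.filter (fun j => ¬ K < |t j|), |t j| ^ r ≤ ∑ j, u j ^ r := by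
        calc ∑ j ∈ univ.filter (fun j => ¬ K < |t j|), |t j| ^ r
            = ∑ j ∈ univ.filter (fun j => ¬ K < |t j|), u j ^ r := by
              refine Finset.sum_congr rfl fun j hj => ?_
              have : |t j| ≤ K := not_lt.1 (mem_filter.1 hj).2
              rw [hudef]
              dsimp only
              rw [min_eq_left this]
          _ ≤ ∑ j, u j ^ r :=
              Finset.sum_le_sum_of_subset_of_nonneg (filter_subset _ _)
                fun j _ _ => Real.rpow_nonneg (hu0 j) _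
      rw [ht] at hsplit
      nlinarith
    set Q : ℝ := ∑ j, u j ^ 2 with hQdef
    have hQ0 : 0 ≤ Q := Finset.sum_nonneg fun j _ => sq_nonneg _
    have hQlow : (1 - 2 * e) * d ≤ Q := by
      have h1 : ∑ j, u j ^ r ≤ ∑ j : Fin d, (1 + r / 2 * (u j ^ 2 - 1)) :=
        Finset.sum_le_sum fun j _ => ROW_bern (hu0 j) hr hr2
      have h2 : ∑ j : Fin d, (1 + r / 2 * (u j ^ 2 - 1)) = d + r / 2 * (Q - d) := by
        rw [Finset.sum_add_distrib, ← Finset.mul_sum, Finset.sum_sub_distrib, ← hQdef]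
        simp only [Finset.sum_const, Finset.card_univ, Fintype.card_fin, nsmul_eq_mul, mul_one]
      have h3 : (1 - e) * d ≤ d + r / 2 * (Q - d) := by linarith
      have h4 : -(e * d) ≤ r / 2 * (Q - d) := by linarith
      by_contra hcon
      push Not at hcon
      have h5 : Q - d < -(2 * e * d) := by linarith
      have h6 : r / 2 * (Q - d) < r / 2 * (-(2 * e * d)) := mul_lt_mul_of_pos_left h5 (by linarith)
      nlinarith [mul_nonneg he0.le hd0.le]
    have hlow : Q ^ (p / 2) * g - ε' * D ≤ E := by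
      refine ROW_low hm hg hp hK1 d ?_ t
      intro w hw
      exact hd₀ d hd2 (Fin d) univ (fun _ => 0) w 0 (by simp) (fun j _ => by simp) hw
    constructor
    · -- the lower bound
      have h1 : (1 - 2 * e) * D ≤ Q ^ (p / 2) := by
        have hx0 : (0 : ℝ) ≤ 1 - 2 * e := by linarith
        calc (1 - 2 * e) * D ≤ (1 - 2 * e) ^ (p / 2) * D := by
              refine mul_le_mul_of_nonneg_right ?_ hD.le
              calc (1 - 2 * e) = (1 - 2 * e) ^ (1 : ℝ) := (Real.rpow_one _).symm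
                _ ≤ (1 - 2 * e) ^ (p / 2) :=
                  Real.rpow_le_rpow_of_exponent_ge (by linarith) (by linarith) (by linarith)
          _ = ((1 - 2 * e) * d) ^ (p / 2) := by rw [Real.mul_rpow hx0 hd0.le]
          _ ≤ Q ^ (p / 2) := Real.rpow_le_rpow (by positivity) hQlow (by linarith)
      have h2 : (1 - 2 * e) * D * g ≤ Q ^ (p / 2) * g := mul_le_mul_of_nonneg_right h1 hg0.le
      have h3 : e * g * D ≤ e * 1 * D := by
        refine mul_le_mul_of_nonneg_right (mul_le_mul_of_nonneg_left hg1 he0.le) hD.le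
      have h4 : e * D ≤ ε / 4 * D := mul_le_mul_of_nonneg_right heε hD.le
      have h5 : ε' * D ≤ ε / 4 * D := mul_le_mul_of_nonneg_right hε'1 hD.le
      have h6 : 0 ≤ ε * D := by positivity
      nlinarith
    · intro hE
      have hη0 : 0 < e / 3 := by linarith
      have h1 : Q ^ (p / 2) ≤ (1 + e / 3) * D := by
        have h2 : Q ^ (p / 2) * g ≤ (g + g * e / 6 + g * e / 6) * D := by
          have h3 : (g + min (1 / 2) (g * e / 6)) * D ≤ (g + g * e / 6) * D :=
            mul_le_mul_of_nonneg_right (by linarith) hD.le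
          have h4 : ε' * D ≤ g * e / 6 * D := mul_le_mul_of_nonneg_right hε'2 hD.le
          nlinarith
        have h5 : (g + g * e / 6 + g * e / 6) * D = ((1 + e / 3) * D) * g := by ring
        rw [h5] at h2
        exact le_of_mul_le_mul_right h2 hg0
      have hQup : Q ≤ (1 + e / 3) ^ 2 * d := by
        by_contra hcon
        push Not at hcon
        have h2 : ((1 + e / 3) ^ 2 * (d : ℝ)) ^ (p / 2) < Q ^ (p / 2) :=
          Real.rpow_lt_rpow (by positivity) hcon (by linarith)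
        have h3 : ((1 + e / 3) ^ 2 * (d : ℝ)) ^ (p / 2) = (1 + e / 3) ^ p * D := by
          rw [Real.mul_rpow (by positivity) hd0.le, ← Real.rpow_two, ← Real.rpow_mul (by linarith)]
          congr 2
          ring
        have h4 : (1 + e / 3) * D ≤ (1 + e / 3) ^ p * D := by
          refine mul_le_mul_of_nonneg_right ?_ hD.le
          calc (1 + e / 3) = (1 + e / 3) ^ (1 : ℝ) := (Real.rpow_one _).symm
            _ ≤ (1 + e / 3) ^ p := Real.rpow_le_rpow_of_exponent_le (by linarith) hp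
        rw [h3] at h2
        linarith
      have hQup' : Q ≤ (1 + δA) * d := by
        refine hQup.trans (mul_le_mul_of_nonneg_right ?_ hd0.le)
        nlinarith
      have hur' : (1 - δA) * d ≤ ∑ j, u j ^ r := by
        refine le_trans (mul_le_mul_of_nonneg_right ?_ hd0.le) hur
        linarith
      have h2 := hA d u hu0 hur' hQup'
      have h3 : ∀ j, |(|t j| - 1)| ≤ |u j - 1| + (if K < |t j| then |t j| ^ r else 0) := by
        intro j
        split_ifs with hj
        · have h4 : 1 ≤ |t j| := by linarith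
          have h5 : |t j| ≤ |t j| ^ r := by
            calc |t j| = |t j| ^ (1 : ℝ) := (Real.rpow_one _).symm
              _ ≤ |t j| ^ r := Real.rpow_le_rpow_of_exponent_le h4 hr
          rw [abs_of_nonneg (by linarith : (0 : ℝ) ≤ |t j| - 1)]
          have := abs_nonneg (u j - 1)
          linarith
        · rw [hudef]
          dsimp only
          rw [min_eq_left (not_lt.1 hj), add_zero]
      calc ∑ j, |(|t j| - 1)| ≤ ∑ j, (|u j - 1| + (if K < |t j| then |t j| ^ r else 0)) :=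
            Finset.sum_le_sum fun j _ => h3 j
        _ = ∑ j, |u j - 1| + ∑ j ∈ univ.filter (fun j => K < |t j|), |t j| ^ r := by
            rw [Finset.sum_add_distrib, Finset.sum_filter]
        _ ≤ ε / 2 * d + e * d := add_le_add h2 hcase.le
        _ ≤ ε * d := by nlinarith

end Pool.Agent.helper43.KG
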